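import Pool.Agent.E8helper8.LG.BF
import Pool.Agent.E8helper8.LG.Rep

/-!
For every sentence of the infinitary logic with arbitrary conjunctions and arbitrary quantifier
blocks, in the signature of lattices, there are distributive lattices `M₁` and `M₂` such that
`M₁` is the lattice of finitely generated ideals of an Archimedean lattice-ordered group with an
order unit, `M₂` is not the lattice of finitely generated ideals of any Abelian lattice-ordered
group with an order unit, and the sentence holds in `M₁` if and only if it holds in `M₂`.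

The definitions are in `Pool.Agent.E8helper8.LG.Defs`.
-/

namespace Pool.Agent.Results.MP_99407b_lc.NoSentenceH8

open Pool.Agent.E8helper8.LG Cardinal

/-- No sentence separates the ideal lattices of unital Archimedean lattice-ordered groups from
the lattices which are not ideal lattices of unital Abelian lattice-ordered groups. -/
theorem result (φ : InfFormula latSig Empty) :
    ∃ (M₁ M₂ : Type) (_ : DistribLattice M₁) (_ : DistribLattice M₂),
      InCu M₁ ∧ ¬ UnitRepresentable M₂ ∧ (Models M₁ φ ↔ Models M₂ φ) := by
  obtain ⟨κ₀, hκ₀⟩ := φ.exists_bound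
  set κ : Cardinal.{0} := max κ₀ (2 ^ ℵ₀) with hκ
  have h2 : 2 ^ ℵ₀ ≤ κ := le_max_right _ _
  have h0 : ℵ₀ ≤ κ := (Cardinal.cantor ℵ₀).le.trans h2
  haveI : Fact (ℵ₀ ≤ κ) := ⟨h0⟩
  have hX₁ : #((Order.succ κ).ord.ToType) = Order.succ κ := Cardinal.mk_ord_toType _
  have hX₂ : #((Order.succ (Order.succ κ)).ord.ToType) = Order.succ (Order.succ κ) :=
    Cardinal.mk_ord_toType _
  refine ⟨D κ (Order.succ κ).ord.ToType, D κ (Order.succ (Order.succ κ)).ord.ToType,
    inferInstance, inferInstance, inCu ?_, not_unitRepresentable h2 ?_, ?_⟩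
  · intro x
    have h := Cardinal.mk_Iio_lt x (by rw [hX₁, Ordinal.type_toType])
    rw [hX₁] at h
    exact Order.lt_succ_iff.1 h
  · rw [hX₂]
    exact Order.lt_succ _
  · refine models_iff ?_ ?_ φ (hκ₀ κ (le_max_left _ _))
    · rw [hX₁]; exact Order.lt_succ _
    · rw [hX₂]; exact (Order.lt_succ _).trans (Order.lt_succ _)

end Pool.Agent.Results.MP_99407b_lc.NoSentenceH8
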